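import Pool.Agent.Helper1.KL.Stmts
import Pool.Agent.HC.Same

set_option autoImplicit false

/-!
Project KL (MP_0b9e0b_ag), module KL-4: the sum `SS ρ z` and the relative degree depend only on
the reduced point.
-/

namespace Pool.Agent.Helper33.KL

open Pool.Agent.Helper16 Pool.Agent.Helper1.KL

section General

variable {F σ N N' : Type} [Field F] [Field N] [Algebra F N] [Field N'] [Algebra F N']

theorem fld_eq (z : σ → Option N) :
    fld F z = IntermediateField.adjoin F (Set.range fun j => (z j).getD 0) := by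
  unfold fld
  refine le_antisymm (IntermediateField.adjoin_le_iff.2 ?_) (IntermediateField.adjoin_le_iff.2 ?_)
  · rintro a ⟨j, hj⟩
    exact IntermediateField.subset_adjoin F _ ⟨j, by simp [hj]⟩
  · rintro _ ⟨j, rfl⟩
    cases hj : z j with
    | none => 
      simp only [hj, Option.getD_none]
      exact zero_mem _
    | some a => 
      simp only [hj, Option.getD_some]
      exact IntermediateField.subset_adjoin F _ ⟨j, hj⟩

theorem getD_map (φ : N →ₐ[F] N') (a : Option N) : (a.map φ).getD 0 = φ (a.getD 0) := by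
  cases a with
  | none => simp
  | some a => simp

theorem key_map (φ : N →ₐ[F] N') (z : σ → Option N) :
    key F (fun j => (z j).map φ) = key F z := by
  unfold key
  refine Prod.ext ?_ ?_
  · ext j
    simp
  · change RingHom.ker (MvPolynomial.aeval (R := F) fun j => ((z j).map φ).getD 0) =
      RingHom.ker (MvPolynomial.aeval (R := F) fun j => (z j).getD 0)
    ext P
    rw [RingHom.mem_ker, RingHom.mem_ker]
    have h : (MvPolynomial.aeval (R := F) fun j => ((z j).map φ).getD 0) P =
        φ ((MvPolynomial.aeval (R := F) fun j => (z j).getD 0) P) := by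
      simp only [getD_map]
      rw [← MvPolynomial.comp_aeval_apply]
    rw [h, map_eq_zero]

theorem fld_map (φ : N →ₐ[F] N') (z : σ → Option N) :
    fld F (fun j => (z j).map φ) = (fld F z).map φ := by
  rw [fld_eq, fld_eq, IntermediateField.adjoin_map]
  congr 1
  ext a
  simp only [Set.mem_range, Set.mem_image, getD_map]
  constructor
  · rintro ⟨j, rfl⟩
    exact ⟨_, ⟨j, rfl⟩, rfl⟩
  · rintro ⟨_, ⟨j, rfl⟩, rfl⟩
    exact ⟨j, rfl⟩

/-- Points with the same key: the same finite coordinates and the same relations. -/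
theorem key_eq_iff (z : σ → Option N) (z' : σ → Option N') : key F z = key F z' ↔
    (∀ j, z j = none ↔ z' j = none) ∧ ∀ P : MvPolynomial σ F,
      MvPolynomial.aeval (fun j => (z j).getD 0) P = 0 ↔
      MvPolynomial.aeval (fun j => (z' j).getD 0) P = 0 := by
  unfold key
  rw [Prod.ext_iff]
  change ({j | z j ≠ none} = {j | z' j ≠ none} ∧
    RingHom.ker (MvPolynomial.aeval (R := F) fun j => (z j).getD 0) =
    RingHom.ker (MvPolynomial.aeval (R := F) fun j => (z' j).getD 0)) ↔ _
  rw [Set.ext_iff, Ideal.ext_iff]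
  refine and_congr (forall_congr' fun j => ?_) (forall_congr' fun P => ?_)
  · change (z j ≠ none ↔ z' j ≠ none) ↔ _
    exact not_iff_not
  · rw [RingHom.mem_ker, RingHom.mem_ker]

/-- Extension of homomorphisms along algebraic extensions. -/
theorem exists_ext {K A E Ω : Type} [Field K] [Field A] [Field E] [Field Ω] [Algebra K A]
    [Algebra K E] [Algebra K Ω] [IsAlgClosed Ω] (i : A →ₐ[K] E)
    (halg : ∀ a : E, ∃ P : Polynomial A, P ≠ 0 ∧ P.eval₂ (i : A →+* E) a = 0) (φ : A →ₐ[K] Ω) :
    ∃ ψ : E →ₐ[K] Ω, ∀ a, ψ (i a) = φ a := by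
  let a1 : Algebra A E := (i : A →+* E).toAlgebra
  have a3 : IsScalarTower K A E := IsScalarTower.of_algebraMap_eq fun a => (i.commutes a).symm
  have a4 : Algebra.IsAlgebraic A E := ⟨fun a => by
    obtain ⟨P, hP, h⟩ := halg a
    exact ⟨P, hP, h⟩⟩
  let a5 : Algebra A Ω := (φ : A →+* Ω).toAlgebra
  have a6 : IsScalarTower K A Ω := IsScalarTower.of_algebraMap_eq fun a => (φ.commutes a).symm
  let ψ0 : E →ₐ[A] Ω := IsAlgClosed.lift
  exact ⟨ψ0.restrictScalars K, fun a => ψ0.commutes a⟩

end General

section Tr

variable {p : ℕ} [Fact p.Prime] {n : ℕ}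

theorem cast_map {N N' : Type} [Field N] [Field N'] (φ : N →+* N') (h : ZMod p) :
    φ (h.cast : N) = h.cast := by
  rw [← ZMod.natCast_val, ← ZMod.natCast_val, map_natCast]

theorem yc_map {K N N' : Type} [Field K] [Field N] [Field N'] [Algebra K N] [Algebra K N']
    (φ : N →ₐ[K] N') (z : Fin n ⊕ Fin n → Option N) (i : Fin n) :
    yc (fun j => (z j).map φ) i = φ (yc z i) := getD_map φ _

theorem ec_map {K N N' : Type} [Field K] [Field N] [Field N'] [Algebra K N] [Algebra K N']
    (φ : N →ₐ[K] N') (ρ : Fin n → ZMod p) (z : Fin n ⊕ Fin n → Option N) :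
    ec ρ (fun j => (z j).map φ) = φ (ec ρ z) := by
  unfold ec
  rw [map_sum]
  refine Finset.sum_congr rfl fun i _ => ?_
  rw [map_mul, yc_map]
  congr 1
  exact (cast_map (φ : N →+* N') (ρ i)).symm

theorem red_map {K N N' : Type} [Field K] [Field N] [Field N'] [Algebra K N] [Algebra K N']
    (φ : N →ₐ[K] N') (ρ : Fin n → ZMod p) (z : Fin n ⊕ Fin n → Option N) :
    red ρ (fun j => (z j).map φ) = fun j => (red ρ z j).map φ := by
  funext j
  rcases j with i | u
  · rfl
  · change some (ec ρ fun j => (z j).map φ) = some (φ (ec ρ z))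
    rw [ec_map]

theorem tr_map {K N N' : Type} [Field K] [Field N] [Field N'] [Algebra K N] [Algebra K N']
    (φ : N →ₐ[K] N') (h : Fin n → ZMod p) (z : Fin n ⊕ Fin n → Option N) :
    tr h (fun j => (z j).map φ) = fun j => (tr h z j).map φ := by
  funext j
  rcases j with i | i
  · rfl
  · change ((z (Sum.inr i)).map φ).map (fun c => c + (h i).cast) =
      ((z (Sum.inr i)).map fun c => c + (h i).cast).map φ
    rw [Option.map_map, Option.map_map]
    congr 1
    funext c
    change φ c + (h i).cast = φ (c + (h i).cast)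
    rw [map_add]
    congr 1
    exact (cast_map (φ : N →+* N') (h i)).symm

theorem tr_tr {N : Type} [Field N] [CharP N p] (g h : Fin n → ZMod p)
    (z : Fin n ⊕ Fin n → Option N) : tr g (tr h z) = tr (g + h) z := by
  funext j
  rcases j with i | i
  · rfl
  · change ((z (Sum.inr i)).map fun c => c + (h i).cast).map (fun c => c + (g i).cast) =
      (z (Sum.inr i)).map fun c => c + ((g + h) i).cast
    rw [Option.map_map]
    congr 1
    funext c
    change c + (h i).cast + (g i).cast = c + (g i + h i : ZMod p).cast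
    rw [ZMod.cast_add (dvd_refl p)]
    ring

/-- The Artin-Schreier equation determines an element up to a constant. -/
theorem exists_cast {N : Type} [Field N] [CharP N p] {u w : N} (h : u ^ p - u = w ^ p - w) :
    ∃ a : ZMod p, u = w + a.cast := by
  classical
  have hp : p.Prime := Fact.out
  have h1 : (u - w) ^ p = u - w := by
    rw [sub_pow_char]
    linear_combination h
  let P : Polynomial N := Polynomial.X ^ p - Polynomial.X
  have hP : P ≠ 0 := by
    intro h0
    have : P.coeff p = 0 := by rw [h0, Polynomial.coeff_zero]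
    simp only [P, Polynomial.coeff_sub, Polynomial.coeff_X_pow_self, Polynomial.coeff_X,
      if_neg hp.one_lt.ne, sub_zero] at this
    exact one_ne_zero this
  have hcard : P.roots.toFinset.card ≤ p := by
    refine (Multiset.toFinset_card_le _).trans ((Polynomial.card_roots' P).trans ?_)
    refine (Polynomial.natDegree_sub_le _ _).trans ?_
    rw [Polynomial.natDegree_X_pow, Polynomial.natDegree_X]
    exact max_le le_rfl hp.one_lt.le
  have hinj : Function.Injective (fun a : ZMod p => (a.cast : N)) :=
    (ZMod.castHom (dvd_refl p) N).injective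
  have hsub : (Finset.univ.image fun a : ZMod p => (a.cast : N)) ⊆ P.roots.toFinset := by
    intro a ha
    obtain ⟨a, -, rfl⟩ := Finset.mem_image.1 ha
    rw [Multiset.mem_toFinset, Polynomial.mem_roots hP]
    simp only [P, Polynomial.IsRoot, Polynomial.eval_sub, Polynomial.eval_pow, Polynomial.eval_X]
    have h3 : ((a.cast : N)) ^ p = a.cast := by
      have h4 := congrArg (ZMod.castHom (dvd_refl p) N) (ZMod.pow_card a)
      rw [map_pow] at h4
      exact h4
    rw [h3, sub_self]
  have heq := Finset.eq_of_subset_of_card_le hsub (by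
    rw [Finset.card_image_of_injective _ hinj, Finset.card_univ, ZMod.card]
    exact hcard)
  have hmem : u - w ∈ P.roots.toFinset := by
    rw [Multiset.mem_toFinset, Polynomial.mem_roots hP]
    simp only [P, Polynomial.IsRoot, Polynomial.eval_sub, Polynomial.eval_pow, Polynomial.eval_X]
    rw [h1, sub_self]
  rw [← heq] at hmem
  obtain ⟨a, -, ha⟩ := Finset.mem_image.1 hmem
  exact ⟨a, by linear_combination -ha⟩

end Tr

section Main

variable {k : Type} [Field k] {p : ℕ} [Fact p.Prime] [CharP k p] {n : ℕ} {b : Fin n → k}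

theorem charP_K (k : Type) [Field k] (p : ℕ) [CharP k p] (N : Type) [Field N]
    [Algebra (RatFunc k) N] : CharP N p := by
  have : CharP (RatFunc k) p := charP_of_injective_ringHom (RatFunc.C (K := k)).injective p
  exact charP_of_injective_ringHom (algebraMap (RatFunc k) N).injective p

omit [Fact p.Prime] in
/-- A point is finite in the coordinate `y i` if and only if `x i` is finite and not `0`. -/
theorem curve_cases {N : Type} [Field N] {t c : N} (hc : c ≠ 0) {x y : Option N}
    (h : Curve p t c x y) :
    (y = none ∧ x.getD 0 = 0) ∨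
      ∃ a d : N, a ≠ 0 ∧ x = some a ∧ y = some d ∧ d ^ p - d = t * a + c / a := by
  rcases h with ⟨hy, hx | hx⟩ | ⟨a, d, hx, hy, h⟩
  · exact Or.inl ⟨hy, by rw [hx]; rfl⟩
  · exact Or.inl ⟨hy, by rw [hx]; rfl⟩
  · right
    have ha : a ≠ 0 := by
      intro h0
      rw [h0] at h
      apply hc
      linear_combination -h
    refine ⟨a, d, ha, hx, hy, ?_⟩
    field_simp
    linear_combination h

omit [Fact p.Prime] [CharP k p] in
theorem b_ne (hb : ∀ i, b i ≠ 0) (i : Fin n) (N : Type) [Field N] [Algebra (RatFunc k) N] :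
    algebraMap (RatFunc k) N (RatFunc.C (b i)) ≠ 0 := by
  rw [Ne, map_eq_zero, map_eq_zero]
  exact hb i

omit [CharP k p] in
/-- The field of a point of `X` is algebraic over every field containing the coordinates `x`. -/
theorem isAlgebraic_fld (hb : ∀ i, b i ≠ 0) {N : Type} [Field N] [Algebra (RatFunc k) N]
    {z : Fin n ⊕ Fin n → Option N} (hz : XV p b N z) (F : IntermediateField (RatFunc k) N)
    (hF : ∀ i, xc z i ∈ F) (a : N) (ha : a ∈ fld (RatFunc k) z) : IsAlgebraic F a := by
  have hp : p.Prime := Fact.out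
  have hle : fld (RatFunc k) z ≤ (algebraicClosure F N).restrictScalars (RatFunc k) := by
    unfold fld
    rw [IntermediateField.adjoin_le_iff]
    rintro a ⟨j, hj⟩
    change a ∈ algebraicClosure F N
    rw [mem_algebraicClosure_iff]
    rcases j with i | i
    · have h1 : a = algebraMap F N ⟨xc z i, hF i⟩ := by
        change a = (z (Sum.inl i)).getD 0
        rw [hj]
        rfl
      rw [h1]
      exact isAlgebraic_algebraMap _
    · rcases curve_cases (b_ne hb i N) (hz i) with ⟨h1, -⟩ | ⟨u, d, hu, h1, h2, h3⟩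
      · rw [h1] at hj
        exact absurd hj (by simp)
      · have hda : d = a := by
          rw [h2] at hj
          exact Option.some.inj hj
        subst hda
        have hu' : u = xc z i := by
          change u = (z (Sum.inl i)).getD 0
          rw [h1]
          rfl
        let g : F := algebraMap (RatFunc k) F RatFunc.X * ⟨xc z i, hF i⟩ +
          algebraMap (RatFunc k) F (RatFunc.C (b i)) / ⟨xc z i, hF i⟩
        have hg : algebraMap F N g = d ^ p - d := by
          rw [h3, hu']
          rfl
        refine ⟨Polynomial.X ^ p - Polynomial.X - Polynomial.C g, ?_, ?_⟩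
        · intro h0
          have h4 := congrArg (fun P => Polynomial.coeff P p) h0
          simp only [Polynomial.coeff_sub, Polynomial.coeff_X_pow_self, Polynomial.coeff_X,
            if_neg hp.one_lt.ne, Polynomial.coeff_C, if_neg hp.ne_zero, sub_zero,
            Polynomial.coeff_zero] at h4
          exact one_ne_zero h4
        · simp only [map_sub, map_pow, Polynomial.aeval_X, Polynomial.aeval_C, hg, sub_self]
  have := hle ha
  exact (mem_algebraicClosure_iff).1 this

theorem xc_mem {N : Type} [Field N] [Algebra (RatFunc k) N] (z : Fin n ⊕ Fin n → Option N)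
    (i : Fin n) : xc z i ∈ fld (RatFunc k) z := by
  rw [fld_eq]
  exact IntermediateField.subset_adjoin _ _ ⟨Sum.inl i, rfl⟩

theorem yc_mem {N : Type} [Field N] [Algebra (RatFunc k) N] (z : Fin n ⊕ Fin n → Option N)
    (i : Fin n) : yc z i ∈ fld (RatFunc k) z := by
  rw [fld_eq]
  exact IntermediateField.subset_adjoin _ _ ⟨Sum.inr i, rfl⟩

omit [CharP k p] in
theorem ec_mem {N : Type} [Field N] [Algebra (RatFunc k) N] (ρ : Fin n → ZMod p)
    (z : Fin n ⊕ Fin n → Option N) : ec ρ z ∈ fld (RatFunc k) z := by
  unfold ec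
  refine sum_mem fun i _ => mul_mem ?_ (yc_mem z i)
  rw [← ZMod.natCast_val]
  exact natCast_mem _ _

theorem exists_match (hb : ∀ i, b i ≠ 0) {N N' : Type} [Field N] [Field N']
    [Algebra (RatFunc k) N] [Algebra (RatFunc k) N'] (z : Fin n ⊕ Fin n → Option N)
    (z' : Fin n ⊕ Fin n → Option N') (ρ : Fin n → ZMod p) (hz : XV p b N z) (hz' : XV p b N' z')
    (hk : key (RatFunc k) (red ρ z) = key (RatFunc k) (red ρ z')) :
    ∃ (E Ω : Type) (_ : Field E) (_ : Field Ω) (_ : Algebra (RatFunc k) E)
      (_ : Algebra (RatFunc k) Ω) (ι : E →ₐ[RatFunc k] N) (ψ : E →ₐ[RatFunc k] Ω)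
      (ι' : N' →ₐ[RatFunc k] Ω) (zE : Fin n ⊕ Fin n → Option E) (h : Fin n → ZMod p),
      (fun j => (zE j).map ι) = z ∧ ∑ i, ρ i * h i = 0 ∧
      (fun j => (zE j).map ψ) = tr h (fun j => (z' j).map ι') ∧
      red ρ (fun j => (zE j).map ψ) = red ρ (fun j => (z' j).map ι') := by
  obtain ⟨hn, hP⟩ := (key_eq_iff _ _).1 hk
  let K := RatFunc k
  let c : Fin n ⊕ Unit → N := fun j => (red ρ z j).getD 0
  let d : Fin n ⊕ Unit → N' := fun j => (red ρ z' j).getD 0
  obtain ⟨φ, hφ⟩ := HC.exists_relHom c d hP
  let F := IntermediateField.adjoin K (Set.range c)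
  let E := fld K z
  have hFE : F ≤ E := by
    refine IntermediateField.adjoin_le_iff.2 ?_
    rintro _ ⟨j, rfl⟩
    rcases j with i | u
    · exact xc_mem z i
    · exact ec_mem ρ z
  have halg : ∀ a ∈ E, IsAlgebraic F a := isAlgebraic_fld hb hz F
    (fun i => IntermediateField.subset_adjoin _ _ ⟨Sum.inl i, rfl⟩)
  let Ω := AlgebraicClosure N'
  obtain ⟨ψ, hψ⟩ : ∃ ψ : E →ₐ[K] Ω, ∀ a : F, ψ (IntermediateField.inclusion hFE a) =
      algebraMap N' Ω (φ a) := by
    refine exists_ext (IntermediateField.inclusion hFE) (fun a => ?_)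
      ((IsScalarTower.toAlgHom K N' Ω).comp φ)
    obtain ⟨P, hP, h⟩ := halg a a.2
    refine ⟨P, hP, ?_⟩
    apply Subtype.ext
    have h1 : E.val (P.eval₂ ((IntermediateField.inclusion hFE : F →ₐ[K] E) : F →+* E) a) =
        P.eval₂ (algebraMap F N) (a : N) := by
      change (E.val : E →+* N) _ = _
      rw [Polynomial.hom_eval₂]
      rfl
    exact h1.trans h
  have hxv : ∀ i, ψ ⟨xc z i, xc_mem z i⟩ = algebraMap N' Ω (xc z' i) := by
    intro i
    have h1 := hψ ⟨c (Sum.inl i), IntermediateField.subset_adjoin _ _ ⟨Sum.inl i, rfl⟩⟩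
    rw [hφ] at h1
    exact h1
  have hev : ψ ⟨ec ρ z, ec_mem ρ z⟩ = algebraMap N' Ω (ec ρ z') := by
    have h1 := hψ ⟨c (Sum.inr ()), IntermediateField.subset_adjoin _ _ ⟨Sum.inr (), rfl⟩⟩
    rw [hφ] at h1
    exact h1
  have hzE0 : ∀ j, ∃ w : Option E, w.map E.val = z j := by
    intro j
    cases hj : z j with
    | none => exact ⟨none, rfl⟩
    | some a => exact ⟨some ⟨a, IntermediateField.subset_adjoin _ _ ⟨j, hj⟩⟩, rfl⟩
  choose zE hzE using hzE0
  have hval : ∀ j, ψ ((zE j).getD 0) = ψ ⟨(z j).getD 0, by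
      rw [← hzE j, getD_map]; exact ((zE j).getD 0).2⟩ := by
    intro j
    congr 1
    apply Subtype.ext
    change _ = (z j).getD 0
    rw [← hzE j, getD_map]
    rfl
  have hx : ∀ i, (zE (Sum.inl i)).map ψ = (z' (Sum.inl i)).map (algebraMap N' Ω) := by
    intro i
    have h1 : z (Sum.inl i) = none ↔ z' (Sum.inl i) = none := hn (Sum.inl i)
    have h2 := hval (Sum.inl i)
    have h3 : ψ ((zE (Sum.inl i)).getD 0) = algebraMap N' Ω ((z' (Sum.inl i)).getD 0) :=
      h2.trans (hxv i)
    rw [← hzE (Sum.inl i), Option.map_eq_none_iff] at h1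
    cases hi : zE (Sum.inl i) with
    | none => rw [h1.1 hi]; rfl
    | some w =>
      cases hi' : z' (Sum.inl i) with
      | none => rw [h1.2 hi'] at hi; exact absurd hi (by simp)
      | some w' =>
        rw [hi, hi'] at h3
        exact congrArg some h3
  have hy : ∀ i, ∃ a : ZMod p, (zE (Sum.inr i)).map ψ =
      ((z' (Sum.inr i)).map (algebraMap N' Ω)).map (fun c => c + a.cast) ∧
      (z' (Sum.inr i) = none → a = 0) := by
    intro i
    have hxi := hxv i
    rcases curve_cases (b_ne hb i N) (hz i) with ⟨h1, h2⟩ | ⟨u, w, hu, h1, h2, h3⟩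
    · rcases curve_cases (b_ne hb i N') (hz' i) with ⟨h1', h2'⟩ | ⟨u', w', hu', h1', h2', h3'⟩
      · refine ⟨0, ?_, fun _ => rfl⟩
        have h4 := hzE (Sum.inr i)
        rw [h1, Option.map_eq_none_iff] at h4
        rw [h4, h1']
        rfl
      · exfalso
        have h4 : xc z i = 0 := h2
        have h5 : xc z' i = u' := by
          change (z' (Sum.inl i)).getD 0 = u'
          rw [h1']
          rfl
        rw [h5] at hxi
        have h6 : (⟨xc z i, xc_mem z i⟩ : E) = 0 := Subtype.ext h4
        rw [h6, map_zero] at hxi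
        exact hu' ((map_eq_zero (algebraMap N' Ω)).1 hxi.symm)
    · have h5 : xc z i = u := by
        change (z (Sum.inl i)).getD 0 = u
        rw [h1]
        rfl
      rcases curve_cases (b_ne hb i N') (hz' i) with ⟨h1', h2'⟩ | ⟨u', w', hu', h1', h2', h3'⟩
      · exfalso
        have h4 : xc z' i = 0 := h2'
        rw [h4, map_zero, map_eq_zero] at hxi
        exact hu (h5.symm.trans (congrArg Subtype.val hxi))
      · have h5' : xc z' i = u' := by
          change (z' (Sum.inl i)).getD 0 = u'
          rw [h1']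
          rfl
        have := charP_K k p Ω
        have hw : w ∈ E := by
          have := yc_mem (k := k) z i
          have h6 : yc z i = w := by
            change (z (Sum.inr i)).getD 0 = w
            rw [h2]
            rfl
          rwa [h6] at this
        have hu0 : u ∈ E := by
          have := xc_mem (k := k) z i
          rwa [h5] at this
        have hψu : ψ ⟨u, hu0⟩ = algebraMap N' Ω u' := by
          rw [← h5', ← hxi]
          congr 1
          exact Subtype.ext h5.symm
        have h7 : (⟨w, hw⟩ : E) ^ p - ⟨w, hw⟩ = algebraMap K E RatFunc.X * ⟨u, hu0⟩ +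
            algebraMap K E (RatFunc.C (b i)) / ⟨u, hu0⟩ := Subtype.ext h3
        have h8 := congrArg ψ h7
        rw [map_sub, map_pow, map_add, map_mul, map_div₀, hψu, ψ.commutes, ψ.commutes] at h8
        have h9 := congrArg (algebraMap N' Ω) h3'
        rw [map_sub, map_pow, map_add, map_mul, map_div₀, ← IsScalarTower.algebraMap_apply,
          ← IsScalarTower.algebraMap_apply] at h9
        obtain ⟨a, ha⟩ := exists_cast (p := p) (h8.trans h9.symm)
        refine ⟨a, ?_, fun h10 => absurd (h10.symm.trans h2') (by simp)⟩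
        have h11 : zE (Sum.inr i) = some ⟨w, hw⟩ := by
          have h12 := hzE (Sum.inr i)
          rw [h2] at h12
          obtain ⟨e, he, he'⟩ := Option.map_eq_some_iff.1 h12
          rw [he]
          congr 1
          exact Subtype.ext he'
        rw [h11, h2']
        exact congrArg some ha
  choose h hh hh0 using hy
  let ι' : N' →ₐ[K] Ω := IsScalarTower.toAlgHom K N' Ω
  have hmain : (fun j => (zE j).map ψ) = tr h (fun j => (z' j).map ι') := by
    funext j
    rcases j with i | i
    · exact hx i
    · exact hh i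
  have hec : ec ρ (fun j => (zE j).map ψ) = algebraMap N' Ω (ec ρ z') := by
    rw [ec_map, ← hev]
    congr 1
    apply Subtype.ext
    have h1 : E.val (ec ρ zE) = ec ρ z := by
      rw [← ec_map]
      congr 1
      exact funext hzE
    exact h1
  have hred : red ρ (fun j => (zE j).map ψ) = red ρ (fun j => (z' j).map ι') := by
    funext j
    rcases j with i | u
    · exact hx i
    · change some (ec ρ fun j => (zE j).map ψ) = some (ec ρ fun j => (z' j).map ι')
      rw [hec, ec_map]
      rfl
  refine ⟨E, Ω, inferInstance, inferInstance, inferInstance, inferInstance, E.val, ψ, ι', zE, h,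
    funext hzE, ?_, hmain, hred⟩
  have := charP_K k p Ω
  have h1 : ec ρ (tr h (fun j => (z' j).map ι')) = ec ρ (fun j => (z' j).map ι') := by
    rw [← hmain, hec, ec_map]
    rfl
  have h2 : ec ρ (tr h (fun j => (z' j).map ι')) = ec ρ (fun j => (z' j).map ι') +
      ((∑ i, ρ i * h i : ZMod p).cast : Ω) := by
    unfold ec
    have h3 : ((∑ i, ρ i * h i : ZMod p).cast : Ω) = ∑ i, (ρ i).cast * (h i).cast := by
      change ZMod.castHom (dvd_refl p) Ω _ = _
      rw [map_sum]
      exact Finset.sum_congr rfl fun i _ => map_mul _ _ _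
    rw [h3, ← Finset.sum_add_distrib]
    refine Finset.sum_congr rfl fun i _ => ?_
    rw [← mul_add]
    congr 1
    change (((z' (Sum.inr i)).map ι').map (fun c => c + ((h i).cast : Ω))).getD 0 =
      ((z' (Sum.inr i)).map ι').getD 0 + ((h i).cast : Ω)
    cases hi : z' (Sum.inr i) with
    | none => simp [hh0 i hi]
    | some a => rfl
  rw [h1] at h2
  have h4 : ZMod.castHom (dvd_refl p) Ω (∑ i, ρ i * h i) = 0 := by
    change ((∑ i, ρ i * h i : ZMod p).cast : Ω) = 0
    linear_combination -h2
  exact (map_eq_zero _).1 h4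

omit [CharP k p] in
theorem fld_tr {N : Type} [Field N] [Algebra (RatFunc k) N] (h : Fin n → ZMod p)
    (z : Fin n ⊕ Fin n → Option N) : fld (RatFunc k) (tr h z) = fld (RatFunc k) z := by
  have hc : ∀ (L : IntermediateField (RatFunc k) N) (a : ZMod p), (a.cast : N) ∈ L := by
    intro L a
    rw [← ZMod.natCast_val]
    exact natCast_mem _ _
  unfold fld
  refine le_antisymm (IntermediateField.adjoin_le_iff.2 ?_) (IntermediateField.adjoin_le_iff.2 ?_)
  · rintro a ⟨j, hj⟩
    rcases j with i | i
    · exact IntermediateField.subset_adjoin _ _ ⟨Sum.inl i, hj⟩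
    · obtain ⟨e, he, he'⟩ := Option.map_eq_some_iff.1 hj
      change e + (h i).cast = a at he'
      rw [← he']
      exact add_mem (IntermediateField.subset_adjoin _ _ ⟨Sum.inr i, he⟩) (hc _ _)
  · rintro a ⟨j, hj⟩
    rcases j with i | i
    · exact IntermediateField.subset_adjoin _ _ ⟨Sum.inl i, hj⟩
    · have h1 : tr h z (Sum.inr i) = some (a + (h i).cast) := by
        change (z (Sum.inr i)).map (fun c => c + (h i).cast) = _
        rw [hj]
        rfl
      have h2 : a = (a + (h i).cast) - (h i).cast := by ring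
      rw [h2]
      exact sub_mem (IntermediateField.subset_adjoin _ _ ⟨Sum.inr i, h1⟩) (hc _ _)

/-- KL-4. -/
theorem modS (k : Type) [Field k] (p : ℕ) [Fact p.Prime] [CharP k p] {n : ℕ} (b : Fin n → k)
    (r : ℕ) (hb : ∀ i, b i ≠ 0) : ModS k p b r := by
  intro N N' _ _ _ _ z z' ρ hz hz' hk
  obtain ⟨E, Ω, _, _, _, _, ι, ψ, ι', zE, h, h1, h2, h3, h4⟩ := exists_match hb z z' ρ hz hz' hk
  have := charP_K k p Ω
  have := charP_K k p N'
  have hkey : ∀ g : Fin n → ZMod p,
      key (RatFunc k) (tr g z) = key (RatFunc k) (tr (g + h) z') := by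
    intro g
    rw [← h1, tr_map, key_map, ← key_map ψ, ← tr_map, h3, tr_tr, tr_map, key_map]
  constructor
  · have hperp : ∀ g : Fin n → ZMod p, g ∈ perp ρ ↔ g + h ∈ perp ρ := by
      intro g
      unfold perp
      rw [Finset.mem_filter, Finset.mem_filter]
      have : ∑ i, ρ i * (g + h) i = ∑ i, ρ i * g i := by
        rw [← add_zero (∑ i, ρ i * g i), ← h2, ← Finset.sum_add_distrib]
        exact Finset.sum_congr rfl fun i _ => mul_add _ _ _
      rw [this]
      simp only [Finset.mem_univ, true_and]
    change ∑ g ∈ perp ρ, cl p b r (tr g z) = ∑ g ∈ perp ρ, cl p b r (tr g z')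
    refine Finset.sum_equiv (Equiv.addRight h) (fun g => ?_) (fun g _ => ?_)
    · rw [Equiv.coe_addRight]
      exact hperp g
    · rw [Equiv.coe_addRight]
      change cls _ _ r _ = cls _ _ r _
      unfold cls
      rw [hkey g]
  · have e1 : (fld (RatFunc k) (red ρ zE)).relfinrank (fld (RatFunc k) zE) =
        (fld (RatFunc k) (red ρ z)).relfinrank (fld (RatFunc k) z) := by
      rw [← h1, red_map, fld_map, fld_map, IntermediateField.relfinrank_map_map]
    have e2 : (fld (RatFunc k) (red ρ zE)).relfinrank (fld (RatFunc k) zE) =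
        (fld (RatFunc k) (red ρ z')).relfinrank (fld (RatFunc k) z') := by
      rw [← IntermediateField.relfinrank_map_map _ _ ψ, ← fld_map, ← fld_map, ← red_map, h4, h3,
        fld_tr, red_map, fld_map, fld_map, IntermediateField.relfinrank_map_map]
    rw [← e1, e2]

end Main

end Pool.Agent.Helper33.KL
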